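import Pool.Agent.N356.SP.Defs4

set_option autoImplicit false

/-! Definitions for the class inequality in `L^(2k)`, all `k` (project GK). -/

namespace Pool.Agent.N332.GK

open Finset Pool.Agent.N356.SP

/-- the sharp constant: `ck k ^ k = (2 (2 k - 1)) ^ k / C(2k, k)` -/
noncomputable def ck (k : ℕ) : ℝ :=
  ((2 * (2 * (k : ℝ) - 1)) ^ k / ((2 * k).choose k : ℝ)) ^ ((1:ℝ) / k)

/-- the coefficient of `w` in the recursion -/
noncomputable def cc (j : ℝ) : ℝ := 64 / 27 * (1 - 1 / (2 * j)) * (1 - 1 / j) * (1 - 3 / (2 * j))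

/-- the lower bound for the class `0` of `f ^ (2 * (i + 4))` -/
noncomputable def GA {R : Type*} [CommRing R] [Algebra ℝ R] (μ w : R) : ℕ → R
  | 0 => (35 / 8 : ℝ) • μ ^ 4 + (20 / 3 : ℝ) • (μ ^ 2 * w) + (32 / 75 : ℝ) • w ^ 2
  | 1 => (63 / 8 : ℝ) • μ ^ 5 + (140 / 9 : ℝ) • (μ ^ 3 * w) + (32 / 15 : ℝ) • (μ * w ^ 2)
  | (i + 2) => ((2 * ((i : ℝ) + 6) - 1) / ((i : ℝ) + 6)) • (μ * GA μ w (i + 1)) +
      cc ((i : ℝ) + 6) • (w * GA μ w i)

/-- `C(2k, k) / 2 ^ k` -/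
noncomputable def lam (k : ℕ) : ℝ := ((2 * k).choose k : ℝ) / 2 ^ k

/-- the coefficients of the normalised recursion -/
noncomputable def sg (j : ℝ) : ℝ := 16 / 27 * (1 - 1 / j) ^ 2

/-- `GA 1 w i / lam (i + 4)` -/
noncomputable def gg (w : ℝ) : ℕ → ℝ
  | 0 => 1 + 32 / 21 * w + 256 / 2625 * w ^ 2
  | 1 => 1 + 160 / 81 * w + 256 / 945 * w ^ 2
  | (i + 2) => gg w (i + 1) + sg ((i : ℝ) + 6) * w * gg w i

/-- the coefficient of `w` in `gg w i` -/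
noncomputable def hh : ℕ → ℝ
  | 0 => 32 / 21
  | 1 => 160 / 81
  | (i + 2) => hh (i + 1) + sg ((i : ℝ) + 6)

/-- bound for `k / hh (k - 4)`, `e = 1 / k` -/
noncomputable def Kb (e : ℝ) : ℝ := 87 / 40 + 107 / 50 * e

/-- the fourth order term of the bound for the moment of order `2k`, `e = 1 / k` -/
noncomputable def Phi (e s : ℝ) : ℝ :=
  Kb e * (1 - e) ^ 2 / (9 * (2 - e)) +
    (1 - e) * (2 - 3 * e) * (2 - 7 / 4 * e) / (6 * (2 - e)) *
      (1 + 2 / 5 * (1 - 2 * e) * s * (1 + 1 / 3 * (1 - 5 / 2 * e) * s *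
        (1 + 41 / 100 * (1 - 3 * e) * s)))

/-- the bound for the moment of order `2k` of `g + t f`, `s = √(k ck) t` -/
noncomputable def Nk (e s : ℝ) : ℝ := 1 + s ^ 2 + s ^ 4 * Phi e s

/-- the bound for the `L^(2k)` norm of `g + t f` -/
noncomputable def Bk (k : ℕ) (t : ℝ) : ℝ :=
  Nk (1 / (k : ℝ)) (√(k * ck k) * t) ^ (1 / (2 * (k : ℝ)))

/-- the range of `t` -/
noncomputable def tk (k : ℕ) : ℝ := 31 / 25 / √(k * ck k)

end Pool.Agent.N332.GK
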