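import Mathlib

set_option autoImplicit false

/-! The exponent `log N / (log log N + 1)`. -/

namespace Pool.Agent.N332.GK

/-- the constant `c(k)` -/
noncomputable def cK (k : ℕ) : ℝ := (2 * (2 * (k : ℝ) - 1)) ^ k / ((2 * k).choose k : ℝ)

theorem choose_sq {k : ℕ} (hk : 1 ≤ k) :
    (16 : ℝ) ^ k ≤ 4 * k * ((2 * k).choose k : ℝ) ^ 2 := by
  induction k, hk using Nat.le_induction with
  | base => norm_num [Nat.choose]
  | succ k hk ih =>
    have h1 : ((k : ℝ) + 1) * ((2 * (k + 1)).choose (k + 1) : ℝ) =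
        2 * (2 * k + 1) * ((2 * k).choose k : ℝ) := by
      have := Nat.succ_mul_centralBinom_succ k
      rw [Nat.centralBinom_eq_two_mul_choose, Nat.centralBinom_eq_two_mul_choose] at this
      exact_mod_cast this
    have hk0 : (0:ℝ) < k := by exact_mod_cast hk
    have h2 : ((2 * (k + 1)).choose (k + 1) : ℝ) =
        2 * (2 * k + 1) * ((2 * k).choose k : ℝ) / (k + 1) := by
      rw [← h1]; field_simp
    rw [h2]
    push_cast
    have hc : (0:ℝ) ≤ ((2 * k).choose k : ℝ) ^ 2 := by positivity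
    have h3 : 4 * ((k:ℝ) + 1) * (2 * (2 * k + 1) * ((2 * k).choose k : ℝ) / (k + 1)) ^ 2 =
        16 * (4 * k * ((2 * k).choose k : ℝ) ^ 2) +
          16 * ((2 * k).choose k : ℝ) ^ 2 / (k + 1) := by
      field_simp
      ring
    rw [h3, pow_succ]
    have : 0 ≤ 16 * ((2 * k).choose k : ℝ) ^ 2 / ((k:ℝ) + 1) := by positivity
    linarith

theorem log_cK_le {k : ℕ} (hk : 1 ≤ k) :
    Real.log (cK k) ≤ ((k : ℝ) + 1 / 2) * Real.log k + Real.log 2 - 1 / 2 := by
  have hk0 : (1:ℝ) ≤ k := by exact_mod_cast hk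
  have hch : (0:ℝ) < ((2 * k).choose k : ℝ) := by
    exact_mod_cast Nat.choose_pos (by omega)
  have h1 := Real.log_le_log (by positivity) (choose_sq hk)
  rw [Real.log_pow, Real.log_mul (by positivity) (by positivity), Real.log_pow,
    Real.log_mul (by norm_num) (by positivity)] at h1
  have h16 : Real.log 16 = 4 * Real.log 2 := by
    rw [show (16:ℝ) = 2 ^ 4 by norm_num, Real.log_pow]; norm_num
  have h4 : Real.log 4 = 2 * Real.log 2 := by
    rw [show (4:ℝ) = 2 ^ 2 by norm_num, Real.log_pow]; norm_num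
  rw [h16, h4] at h1
  have h0 : 0 < 2 * (2 * (k : ℝ) - 1) := by linarith
  unfold cK
  rw [Real.log_div (pow_pos h0 k).ne' hch.ne', Real.log_pow]
  have h2 : (2 * (2 * (k : ℝ) - 1)) = 4 * k * (1 - 1 / (2 * k)) := by field_simp; ring
  have h3 : 0 < 1 - 1 / (2 * (k : ℝ)) := by
    have : 1 / (2 * (k : ℝ)) ≤ 1 / 2 := by
      apply one_div_le_one_div_of_le (by norm_num); linarith
    linarith
  rw [h2, Real.log_mul (by positivity) h3.ne', Real.log_mul (by norm_num) (by positivity), h4]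
  have h5 : Real.log (1 - 1 / (2 * (k : ℝ))) ≤ -(1 / (2 * k)) := by
    have := Real.log_le_sub_one_of_pos h3
    linarith
  have h6 : (k : ℝ) * Real.log (1 - 1 / (2 * (k : ℝ))) ≤ -(1 / 2) := by
    calc (k : ℝ) * Real.log (1 - 1 / (2 * (k : ℝ))) ≤ k * (-(1 / (2 * k))) :=
          mul_le_mul_of_nonneg_left h5 (by linarith)
      _ = -(1 / 2) := by field_simp
  push_cast at h1
  nlinarith

theorem cK_pos {k : ℕ} (hk : 1 ≤ k) : 0 < cK k := by
  have hk0 : (1:ℝ) ≤ k := by exact_mod_cast hk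
  have hch : (0:ℝ) < ((2 * k).choose k : ℝ) := by
    exact_mod_cast Nat.choose_pos (by omega)
  unfold cK
  have : 0 < 2 * (2 * (k : ℝ) - 1) := by linarith
  positivity

theorem one_lt_cK {k : ℕ} (hk : 3 ≤ k) : 1 < cK k := by
  have hk0 : (3:ℝ) ≤ k := by exact_mod_cast hk
  have hch : (0:ℝ) < ((2 * k).choose k : ℝ) := by
    exact_mod_cast Nat.choose_pos (by omega)
  unfold cK
  rw [lt_div_iff₀ hch, one_mul]
  have h1 : ((2 * k).choose k : ℝ) ≤ 4 ^ k := by
    have := Nat.choose_le_two_pow (2 * k) k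
    have h2 : (2:ℕ) ^ (2 * k) = 4 ^ k := by rw [pow_mul]; norm_num
    rw [h2] at this
    exact_mod_cast this
  have h2 : (4:ℝ) ^ k < (2 * (2 * (k : ℝ) - 1)) ^ k :=
    pow_lt_pow_left₀ (by linarith) (by norm_num) (by omega)
  linarith

theorem log2_lt : Real.log 2 - 1 / 2 ≤ 97 / 500 := by
  have := Real.log_two_lt_d9
  norm_num at this ⊢
  linarith

/-- the general inequality -/
theorem expo_gen {L : ℝ} {k : ℕ} {X : ℝ} (hL : 2 ≤ L) (hk0 : L ≤ k) (hk1 : (k : ℝ) ≤ L + 1)
    (hX0 : 0 < X) (hX : X ≤ ((k : ℝ) + 1 / 2) * Real.log k + 97 / 500) :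
    L / (Real.log L + 1) ≤ (k * L + X) / (L + X) := by
  have hL0 : 0 < L := by linarith
  obtain ⟨l, hl⟩ : ∃ l, l = Real.log L := ⟨_, rfl⟩
  obtain ⟨r, hr⟩ : ∃ r, r = (k : ℝ) - L := ⟨_, rfl⟩
  have hl1 : 1 / 2 ≤ l := by
    rw [hl]
    have h1 : Real.log 2 ≤ Real.log L := Real.log_le_log (by norm_num) hL
    have := Real.log_two_gt_d9
    norm_num at this
    linarith
  have hl2 : l ≤ L - 1 := by
    rw [hl]
    exact Real.log_le_sub_one_of_pos hL0
  have hlk : Real.log k ≤ l + r / L := by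
    have h1 : (k : ℝ) = L * (k / L) := by field_simp
    have hkp : (0:ℝ) < k := by linarith
    rw [h1, Real.log_mul hL0.ne' (by positivity), ← hl]
    have h2 := Real.log_le_sub_one_of_pos (show (0:ℝ) < k / L by positivity)
    have h3 : (k : ℝ) / L - 1 = r / L := by rw [hr]; field_simp
    linarith
  have hr0 : 0 ≤ r := by rw [hr]; linarith
  have hr1 : r ≤ 1 := by rw [hr]; linarith
  have hk : (k : ℝ) = L + r := by rw [hr]; ring
  have hX2 : X ≤ (L + r + 1 / 2) * (l + r / L) + 97 / 500 := by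
    refine hX.trans ?_
    rw [hk] at hlk ⊢
    have : (L + r + 1 / 2) * Real.log (L + r) ≤ (L + r + 1 / 2) * (l + r / L) :=
      mul_le_mul_of_nonneg_left hlk (by linarith)
    linarith
  rw [← hl, div_le_div_iff₀ (by linarith) (by linarith), hk]
  have hX3 : (L - 1 - l) * X ≤ (L - 1 - l) * ((L + r + 1 / 2) * (l + r / L) + 97 / 500) :=
    mul_le_mul_of_nonneg_left hX2 (by linarith)
  have e1 : (L - 1 - l) * ((L + r + 1 / 2) * (l + r / L) + 97 / 500) =
      L * ((L + 1 / 2) * l + r * l + r + 97 / 500) + (r ^ 2 + r / 2) -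
      (1 + l) * ((L + 1 / 2) * l + r * l + r + 97 / 500) - (1 + l) * ((r ^ 2 + r / 2) / L) := by
    field_simp
    ring
  have e2 : 0 ≤ (1 + l) * ((r ^ 2 + r / 2) / L) := by positivity
  have e3 : 0 ≤ r * (l ^ 2 + 2 * l - 1 / 2) := mul_nonneg hr0 (by nlinarith)
  have e4 : r ^ 2 ≤ r := by nlinarith
  have e5 : 0 ≤ L * (l ^ 2 + l / 2 - 97 / 500) := mul_nonneg hL0.le (by nlinarith)
  rw [e1] at hX3
  nlinarith

theorem ceil_facts {N : ℕ} (hN : 8 ≤ N) : 2 ≤ Real.log N ∧ 3 ≤ ⌈Real.log N⌉₊ ∧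
    ⌈Real.log N⌉₊ ≤ N := by
  have hN8 : (8:ℝ) ≤ N := by exact_mod_cast hN
  have h1 : Real.log 8 = 3 * Real.log 2 := by
    rw [show (8:ℝ) = 2 ^ 3 by norm_num, Real.log_pow]; norm_num
  have h2 := Real.log_le_log (by norm_num) hN8
  have h3 := Real.log_two_gt_d9
  norm_num at h3
  have h4 : 2 < Real.log N := by linarith
  refine ⟨h4.le, ?_, ?_⟩
  · have : 2 < ⌈Real.log N⌉₊ := Nat.lt_ceil.2 (by push_cast; exact h4)
    omega
  · rw [Nat.ceil_le]
    have := Real.log_le_sub_one_of_pos (show (0:ℝ) < N by linarith)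
    linarith

/-- the exponents `log N / (log log N + 1)` -/
theorem expo {N : ℕ} (hN : 3 ≤ N) : ∃ k : ℕ, 3 ≤ k ∧ k ≤ N ∧
    Real.log N / (Real.log (Real.log N) + 1) ≤
      (k * Real.log N + Real.log (cK k)) / (Real.log N + Real.log (cK k)) := by
  by_cases h8 : 8 ≤ N
  · obtain ⟨h1, h2, h3⟩ := ceil_facts h8
    refine ⟨⌈Real.log N⌉₊, h2, h3, ?_⟩
    refine expo_gen h1 (Nat.le_ceil _) (Nat.ceil_lt_add_one (by linarith)).le
      (Real.log_pos (one_lt_cK h2)) ?_
    have := log_cK_le (k := ⌈Real.log N⌉₊) (by omega)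
    have := log2_lt
    linarith
  · push Not at h8
    refine ⟨3, le_refl _, hN, ?_⟩
    have hN3 : (3:ℝ) ≤ N := by exact_mod_cast hN
    have hN7 : (N:ℝ) ≤ 7 := by exact_mod_cast (by omega : N ≤ 7)
    have c3 : cK 3 = 50 := by
      unfold cK
      have : ((2 * 3).choose 3 : ℕ) = 20 := by decide
      rw [this]; norm_num
    rw [c3]
    obtain ⟨L, hL⟩ : ∃ L, L = Real.log N := ⟨_, rfl⟩
    rw [← hL]
    have e1 : Real.exp 1 < 2.7182818286 := Real.exp_one_lt_d9
    have e2 : 2.7182818283 < Real.exp 1 := Real.exp_one_gt_d9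
    have l2a := Real.log_two_gt_d9
    have l2b := Real.log_two_lt_d9
    have hL1 : 1 < L := by
      rw [hL, Real.lt_log_iff_exp_lt (by linarith)]
      linarith
    have hL2 : L ≤ 21 / 10 := by
      have h1 : L ≤ Real.log 8 := by
        rw [hL]; exact Real.log_le_log (by linarith) (by linarith)
      have h2 : Real.log 8 = 3 * Real.log 2 := by
        rw [show (8:ℝ) = 2 ^ 3 by norm_num, Real.log_pow]; norm_num
      norm_num at l2b
      linarith
    obtain ⟨X, hX⟩ : ∃ X, X = Real.log 50 := ⟨_, rfl⟩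
    rw [← hX]
    have hX1 : 19 / 5 ≤ X := by
      have h1 : Real.log 50 = Real.log 64 + Real.log (50 / 64) := by
        rw [← Real.log_mul (by norm_num) (by norm_num)]; norm_num
      have h2 : Real.log 64 = 6 * Real.log 2 := by
        rw [show (64:ℝ) = 2 ^ 6 by norm_num, Real.log_pow]; norm_num
      have h3 := Real.one_sub_inv_le_log_of_pos (show (0:ℝ) < 50 / 64 by norm_num)
      norm_num at h3 l2a
      rw [hX, h1, h2]
      linarith
    have hX2 : X ≤ 4 := by
      have h1 : Real.log 50 = Real.log 64 + Real.log (50 / 64) := by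
        rw [← Real.log_mul (by norm_num) (by norm_num)]; norm_num
      have h2 : Real.log 64 = 6 * Real.log 2 := by
        rw [show (64:ℝ) = 2 ^ 6 by norm_num, Real.log_pow]; norm_num
      have h3 := Real.log_le_sub_one_of_pos (show (0:ℝ) < 50 / 64 by norm_num)
      norm_num at h3 l2b
      rw [hX, h1, h2]
      linarith
    have h5 : 2 - 1 / L ≤ Real.log L + 1 := by
      have := Real.one_sub_inv_le_log_of_pos (show (0:ℝ) < L by linarith)
      rw [one_div]
      linarith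
    have h6 : 1 < 2 - 1 / L := by
      have : 1 / L < 1 := by rw [div_lt_one (by linarith)]; exact hL1
      linarith
    have h7 : L / (Real.log L + 1) ≤ L / (2 - 1 / L) :=
      div_le_div_of_nonneg_left (by linarith) (by linarith) h5
    refine h7.trans ?_
    have h8 : L / (2 - 1 / L) = L ^ 2 / (2 * L - 1) := by
      have : L ≠ 0 := by linarith
      have h9 : 2 - 1 / L = (2 * L - 1) / L := by field_simp
      rw [h9]
      field_simp
    rw [h8, div_le_div_iff₀ (by linarith) (by linarith)]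
    push_cast
    have h9 : 0 ≤ (L - 1) * (21 / 10 - L) := mul_nonneg (by linarith) (by linarith)
    nlinarith [mul_nonneg (show 0 ≤ X - 19 / 5 by linarith) (show 0 ≤ (L - 1) * (21 / 10 - L) by exact h9), mul_nonneg (show (0:ℝ) ≤ L by linarith) h9, mul_nonneg (show 0 ≤ 4 - X by linarith) h9]

end Pool.Agent.N332.GK
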