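import Pool.Agent.N332.GK.Expo
import Pool.Agent.N356.SP.All3
import Pool.Agent.N356.SP.All4
import Pool.Agent.N332.SK.Final5
import Pool.Agent.N897.GK.Mantel
import Pool.Agent.N34.GK.Wineq
import Pool.Agent.N273.GK.Word
import Pool.Agent.N265.GK.Expand
import Pool.Agent.N426.GK.Rec
import Pool.Agent.N878.GK.A6
import Pool.Agent.N441.GK.A7
import Pool.Agent.N225.GK.P1
import Pool.Agent.N51.GK.P2
import Pool.Agent.N123.GK.P3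
import Pool.Agent.N434.GK.P4
import Pool.Agent.N661.GK.Holder
import Pool.Agent.N284.GK.S1
import Pool.Agent.N887.GK.T1
import Pool.Agent.N55.GKT.T2
import Pool.Agent.N368.GK.LamLe
import Pool.Agent.N438.GK.T3
import Pool.Agent.N853.GK.T4
import Pool.Agent.N853.GK.T6
import Pool.Agent.N490.GK.SplitOK
import Pool.Agent.N710.GK.R2
import Pool.Agent.N331.GK.G1
import Pool.Agent.N331.GK.G3
import Pool.Agent.N331.GK.G4
import Pool.Agent.N402.GK.D6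
import Pool.Agent.N318.GK.Ebound6
import Pool.Agent.N655.GK.Curve6
import Pool.Agent.N530.GK.G2
import Pool.Agent.N459.GK.RealOK
import Pool.Agent.N301.GK.Fin1

set_option autoImplicit false

/-! Assembly of project GK (general `k`). -/

namespace Pool.Agent.N332.GK

open Finset Pool.Agent.H384R3.SPk Pool.Agent.N356.SP

section Abs

variable {Γ R : Type*} [AddCommGroup Γ] [CommRing R] [Algebra ℝ R] {K : Cone Γ R}
  {L : R →ₗ[ℝ] ℝ} {C : Finset Γ} {θ : Γ → Γ → ℝ} {φ : Γ → R}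

/-- the recursion for the class `0` of the even powers of `f` -/
theorem L_rec (hL : IsFun K L) (h : GoodC C θ) (hφ : ∀ c, φ c ∈ K.P c) {j : ℕ} (hj : 2 ≤ j) :
    (2 * (j : ℝ) - 1) / j * L (muA C φ * fA C φ ^ (2 * j - 2)) +
      cc j * L (wA C θ φ * fA C φ ^ (2 * j - 4)) ≤ L (fA C φ ^ (2 * j)) := by
  classical
  refine Pool.Agent.N426.GK.Rec.L_rec
    (Pool.Agent.N273.GK.Word.word h.nn h.neg
      (Pool.Agent.N34.GK.wineq (fun r _ m hm h1 h2 =>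
        Pool.Agent.N897.GK.mantel C r m hm h1 h2) h)) ?_ hL h hφ hj
  intro r N e H
  have := Pool.Agent.N265.GK.expand C φ e H
  rwa [Fintype.card_fin, Fintype.card_fin] at this

/-- all even powers -/
theorem L_GA (hL : IsFun K L) (h : GoodC C θ) (hφ : ∀ c, φ c ∈ K.P c) (i : ℕ) :
    L (GA (muA C φ) (wA C θ φ) i) ≤ L (fA C φ ^ (2 * (i + 4))) :=
  Pool.Agent.N878.GK.L_GA (fun hL _ hj => L_rec hL h hφ hj) (fun hL => L_f8 hL h hφ)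
    (fun hL => Pool.Agent.N332.SK.L_f10 hL h hφ) hL h hφ i

end Abs

theorem pwk {k : ℕ} (hk : 6 ≤ k) {μ w ν : ℝ} (hμ : 0 ≤ μ) (hw : 0 ≤ w) (hν : 0 ≤ ν)
    (h : ν ^ k = GA μ w (k - 4)) :
    (2 * (k : ℝ) - 1) / ck k * μ ≤ ν ∧
      μ * w ≤ Kb (1 / (k : ℝ)) * (ck k / (2 * (k : ℝ) - 1)) ^ 3 * ν ^ 2 *
        (ν - (2 * (k : ℝ) - 1) / ck k * μ) :=
  Pool.Agent.N434.GKP4.pwk (fun hμ w i => Pool.Agent.N225.GK.GA_eq hμ w i)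
    (fun i => (Pool.Agent.N51.GK.hh_facts i).2.2.2) (fun i => (Pool.Agent.N51.GK.hh_facts i).1)
    (fun hx i h => Pool.Agent.N123.GK.gg_pw Pool.Agent.N51.GK.hh_facts hx i h) hk hμ hw hν h

theorem stark {m : ℕ} {C : Finset (ZMod m)} {θ : ZMod m → ZMod m → ℝ} {g f : ℤ →₀ ℝ}
    {k : ℕ} (hk : 6 ≤ k) (h : GoodC C θ) (hg0 : ∀ n, 0 ≤ g n) (hf0 : ∀ n, 0 ≤ f n)
    (hg : ∀ n ∈ g.support, ((n : ℤ) : ZMod m) = 0)
    (hf : ∀ n ∈ f.support, ((n : ℤ) : ZMod m) ∈ C) {G y : ℝ} (hG0 : 0 < G) (hy : 0 ≤ y)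
    (hG : Mc k g ≤ G) (hF : Mc k f ≤ G * y ^ k) :
    0 ≤ AJ (2 * k - 2) 2 g f ∧ (2 * (k : ℝ) - 1) / ck k * AJ (2 * k - 2) 2 g f ≤ G * y ∧
      AJ (2 * k - 3) 3 g f ^ 2 ≤ Kb (1 / (k : ℝ)) * (ck k / (2 * (k : ℝ) - 1)) ^ 3 * G * y ^ 2 *
        (G * y - (2 * (k : ℝ) - 1) / ck k * AJ (2 * k - 2) 2 g f) :=
  Pool.Agent.N284.GK.stark
    (fun i => Pool.Agent.N441.GK.moment (fun hL h hφ i => L_GA hL h hφ i) h hf0 hf i)
    (fun hμ hw i => Pool.Agent.N225.GK.GA_nn hμ hw i)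
    (fun hμ hw i => Pool.Agent.N225.GK.GA_cont hμ hw i)
    (fun hk => fun hμ hw hν h => pwk hk hμ hw hν h)
    (fun hk hj => fun hq hν ν0 => fun hG0 hy hG hF =>
      Pool.Agent.N661.GK.holder hk hj hq hν ν0 hG0 hy hG hF)
    hk h hg0 hf0 hg hf hG0 hy hG hF

theorem curve6 {Y Y1 η s : ℝ} (hY0 : 0 ≤ Y) (hY : Y ≤ Y1) (hY1 : Y1 ≤ 5 / 24) (hη0 : 0 < η)
    (hη1 : η ≤ 1 / 6) (hs0 : 0 ≤ s) (hs1 : 2 * s + η ≤ 1 - 3 / 10 * Y1) :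
    (1 + (1 - η) * Y) ^ ((1 / 2 + s) / (1 - η)) * Real.exp ((Y - Y ^ 3 / 6) / 2) ≤
      (1 - η * Y) ^ (-(s / η)) + Y * (1 + Y / 2) :=
  Pool.Agent.N655.GK6.curve6
    (fun h1 h2 h3 h4 h5 h6 h7 => Pool.Agent.N402.GK.D6 h1 h2 h3 h4 h5 h6 h7)
    (fun h1 h2 h3 h4 h5 h6 => Pool.Agent.N318.GK.Ebound6 h1 h2 h3 h4 h5 h6)
    hY0 hY hY1 hη0 hη1 hs0 hs1

theorem two_block {m : ℕ} {C : Finset (ZMod m)} {θ : ZMod m → ZMod m → ℝ} {g f : ℤ →₀ ℝ}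
    (h : GoodC C θ) {k : ℕ} (hk : 6 ≤ k) (hg0 : ∀ n, 0 ≤ g n) (hf0 : ∀ n, 0 ≤ f n)
    (hg : ∀ n ∈ g.support, ((n : ℤ) : ZMod m) = 0)
    (hf : ∀ n ∈ f.support, ((n : ℤ) : ZMod m) ∈ C) (hG : Mc k g ≤ ((2 * k).choose k : ℝ))
    (hF : Mc k f ≤ ((2 * k).choose k : ℝ)) {t : ℝ} (ht0 : 0 ≤ t)
    (ht1 : √(k * ck k) * t ≤ 31 / 25) :
    Mc k (g + t • f) ≤ ((2 * k).choose k : ℝ) * Nk (1 / (k : ℝ)) (√(k * ck k) * t) :=
  Pool.Agent.N853.GK.T6.two_block Pool.Agent.N887.GK.Mc_exp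
    (fun hk hj2 hj g f => fun hc hα h2 hF =>
      Pool.Agent.N55.GKT.AJ_interp hk hj2 hj g f hc hα h2 hF)
    (fun hk => fun ht => Pool.Agent.N438.GK.Tk_facts (fun hk => Pool.Agent.N368.GK.lam_le hk) hk ht)
    (fun hk => fun he hs0 hs1 hT hr => Pool.Agent.N853.GK.T4.tail_sum hk he hs0 hs1 hT hr)
    (fun hk => fun ht h2 h3 => Pool.Agent.N438.GK.head_sum hk ht h2 h3)
    (fun hk => fun h hg0 hf0 hg hf => fun hG0 hy hG hF => stark hk h hg0 hf0 hg hf hG0 hy hG hF)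
    h hk hg0 hf0 hg hf hG hF ht0 ht1

theorem splitOK {k : ℕ} (hk : 6 ≤ k) : SplitOK k (Bk k) (tk k) :=
  Pool.Agent.N490.GK.splitOK
    (fun h => fun hk hg0 hf0 hg hf hG hF => fun ht0 ht1 =>
      two_block h hk hg0 hf0 hg hf hG hF ht0 ht1)
    (fun hneg h8 h2 => Pool.Agent.N558.LS.good_th hneg h8 h2)
    (fun h8 => Pool.Agent.N615.LS.good_small h8)
    (fun hk => fun hpos h0 h1 => fun ht hB H => Pool.Agent.N608.LS.S_comb hk hpos h0 h1 ht hB H)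
    hk

theorem goodk {k n : ℕ} (hk : 6 ≤ k) (hkn : k ≤ n) {b : ℝ} (hb : (n : ℝ) ^ b = ck k) :
    Good' n b (ck k) ∧ (1 - 1 / (n : ℝ)) * b ≤ 1 - 3 / (8 * (k : ℝ)) ∧
      (1 + 5 / (4 * (k : ℝ)) * (1 - 1 / (n : ℝ))) ^ (1 + b) ≤ 5 / (4 * (k : ℝ)) * ck k :=
  Pool.Agent.N331.GK.goodk (fun hk => Pool.Agent.N331.GK.ck_ge hk)
    (fun hk hkn => fun hb => Pool.Agent.N331.GK.b_le (fun hk => Pool.Agent.N331.GK.ck_ge hk)
      (fun hk => Pool.Agent.N530.GK.log_ck_le hk) hk hkn hb) hk hkn hb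

theorem realOK {k n : ℕ} (hk : 6 ≤ k) (hkn : k ≤ n) {b : ℝ} (hb : (n : ℝ) ^ b = ck k) :
    RealOK n b (Bk k) (tk k) :=
  Pool.Agent.N459.GK.realOK (fun h1 h2 h3 h4 => Pool.Agent.N710.GK.R2 h1 h2 h3 h4)
    (fun h1 h2 h3 h4 h5 h6 h7 => curve6 h1 h2 h3 h4 h5 h6 h7)
    (fun hk => Pool.Agent.N331.GK.ck_ge hk) (fun hk hkn => fun hb => goodk hk hkn hb) hk hkn hb

/-- all `k ≥ 6` -/
theorem maink :
    ∃ K : ℝ, 1 ≤ K ∧ ∀ k : ℕ, 6 ≤ k → ∀ n : ℕ, k ≤ n → ∀ A : Finset ℤ, A.Nonempty →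
      (∀ β : ℝ, (2 * (2 * (k : ℝ) - 1)) ^ k / ((2 * k).choose k : ℝ) ≤ (n : ℝ) ^ β →
        (A.card : ℝ) ^ ((k : ℝ) + β) ≤ K ^ ((k : ℝ) + β) *
          (((sumset k A).card : ℝ) * ((prodset fun _ : Fin n => A).card : ℝ) ^ β)) ∧
      ((A.card : ℝ) / K) ^
          ((k * Real.log n + Real.log ((2 * (2 * (k : ℝ) - 1)) ^ k / ((2 * k).choose k : ℝ))) /
            (Real.log n + Real.log ((2 * (2 * (k : ℝ) - 1)) ^ k / ((2 * k).choose k : ℝ)))) ≤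
        max ((sumset n A).card : ℝ) ((prodset fun _ : Fin n => A).card : ℝ) :=
  Pool.Agent.N301.GK.maink Pool.Agent.N332.SK.hMain (fun hk => splitOK hk)
    (fun hk hkn => fun hb => realOK hk hkn hb) Pool.Agent.N332.SK.hMono Pool.Agent.N332.SK.hPow
    Pool.Agent.N332.SK.hOne

end Pool.Agent.N332.GK
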