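import Pool.Agent.N356.SP.All3
import Pool.Agent.N356.SP.All4
import Pool.Agent.N332.SK.Final5

set_option autoImplicit false

/-! The cases `k = 3, 4, 5` (helper356). -/

namespace Pool.Agent.N332.GK

open Finset

theorem small345 :
    ∃ K : ℝ, 1 ≤ K ∧ ∀ k : ℕ, 3 ≤ k → k ≤ 5 → ∀ n : ℕ, k ≤ n →
      ∀ A : Finset ℤ, A.Nonempty →
        (∀ β : ℝ, (2 * (2 * (k : ℝ) - 1)) ^ k / ((2 * k).choose k : ℝ) ≤ (n : ℝ) ^ β →
          (A.card : ℝ) ^ ((k : ℝ) + β) ≤ K ^ ((k : ℝ) + β) *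
            ((((Fintype.piFinset fun _ : Fin k => A).image fun w => ∑ i, w i).card : ℝ) *
              (((Fintype.piFinset fun _ : Fin n => A).image fun w => ∏ i, w i).card : ℝ) ^ β)) ∧
        ((A.card : ℝ) / K) ^
            ((k * Real.log n + Real.log ((2 * (2 * (k : ℝ) - 1)) ^ k / ((2 * k).choose k : ℝ))) /
              (Real.log n +
                Real.log ((2 * (2 * (k : ℝ) - 1)) ^ k / ((2 * k).choose k : ℝ)))) ≤
          max (((Fintype.piFinset fun _ : Fin n => A).image fun w => ∑ i, w i).card : ℝ)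
            (((Fintype.piFinset fun _ : Fin n => A).image fun w => ∏ i, w i).card : ℝ) := by
  obtain ⟨K3, h3, H3⟩ := Pool.Agent.N356.SP.main3
  obtain ⟨L3, l3, M3⟩ := Pool.Agent.N356.SP.max3
  obtain ⟨K4, h4, H4⟩ := Pool.Agent.N356.SP.main4
  obtain ⟨L4, l4, M4⟩ := Pool.Agent.N356.SP.max4
  obtain ⟨K5, h5, H5⟩ := Pool.Agent.N332.SK.main5
  obtain ⟨L5, l5, M5⟩ := Pool.Agent.N332.SK.max5
  have c3 : (2 * (2 * ((3:ℕ) : ℝ) - 1)) ^ 3 / ((2 * 3).choose 3 : ℝ) = 50 := by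
    have : ((2 * 3).choose 3 : ℕ) = 20 := by decide
    rw [this]; norm_num
  have c4 : (2 * (2 * ((4:ℕ) : ℝ) - 1)) ^ 4 / ((2 * 4).choose 4 : ℝ) = 2744 / 5 := by
    have : ((2 * 4).choose 4 : ℕ) = 70 := by decide
    rw [this]; norm_num
  have c5 : (2 * (2 * ((5:ℕ) : ℝ) - 1)) ^ 5 / ((2 * 5).choose 5 : ℝ) = 52488 / 7 := by
    have : ((2 * 5).choose 5 : ℕ) = 252 := by decide
    rw [this]; norm_num
  have mono1 : ∀ {a b x y : ℝ}, 1 ≤ a → a ≤ b → 0 ≤ x → 0 ≤ y → a ^ x * y ≤ b ^ x * y :=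
    fun ha hab hx hy =>
      mul_le_mul_of_nonneg_right (Real.rpow_le_rpow (by linarith) hab hx) hy
  have hbeta : ∀ {n : ℕ} {c β : ℝ}, 3 ≤ n → 1 < c → c ≤ (n : ℝ) ^ β → 0 ≤ β := by
    intro n c β hn hc h
    by_contra hneg
    push Not at hneg
    have hn1 : (1:ℝ) < n := by exact_mod_cast (by omega : 1 < n)
    have := Real.rpow_lt_one_of_one_lt_of_neg hn1 hneg
    linarith
  set K := max (max (max K3 L3) (max K4 L4)) (max K5 L5) with hK
  have k3 : K3 ≤ K := by simp [hK]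
  have k4 : K4 ≤ K := by simp [hK]
  have k5 : K5 ≤ K := by simp [hK]
  have m3 : L3 ≤ K := by simp [hK]
  have m4 : L4 ≤ K := by simp [hK]
  have m5 : L5 ≤ K := by simp [hK]
  have hK1 : 1 ≤ K := h3.trans k3
  have mono2 : ∀ {a e M : ℝ} {A : Finset ℤ}, 1 ≤ a → a ≤ K → 0 ≤ e →
      ((A.card : ℝ) / a) ^ e ≤ M → ((A.card : ℝ) / K) ^ e ≤ M := by
    intro a e M A ha hab he h
    refine le_trans (Real.rpow_le_rpow (by positivity) ?_ he) h
    exact div_le_div_of_nonneg_left (by positivity) (by linarith) hab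
  have hexp : ∀ {n : ℕ} {k c : ℝ}, 3 ≤ n → 1 < c → 0 ≤ k →
      0 ≤ (k * Real.log n + Real.log c) / (Real.log n + Real.log c) := by
    intro n k c hn hc hk
    have hn1 : (1:ℝ) < n := by exact_mod_cast (by omega : 1 < n)
    have := Real.log_pos hn1
    have := Real.log_pos hc
    positivity
  refine ⟨K, hK1, ?_⟩
  intro k hk3 hk5 n hkn A hA
  have hn3 : 3 ≤ n := hk3.trans hkn
  interval_cases k
  · rw [c3]
    refine ⟨fun β hβ => (H3 n hkn β hβ A hA).trans ?_, ?_⟩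
    · exact mono1 h3 k3 (by have := hbeta hn3 (by norm_num) hβ; push_cast; linarith) (by positivity)
    · exact mono2 l3 m3 (hexp hn3 (by norm_num) (by norm_num)) (M3 n hkn A hA)
  · rw [c4]
    refine ⟨fun β hβ => (H4 n hkn β hβ A hA).trans ?_, ?_⟩
    · exact mono1 h4 k4 (by have := hbeta hn3 (by norm_num) hβ; push_cast; linarith) (by positivity)
    · exact mono2 l4 m4 (hexp hn3 (by norm_num) (by norm_num)) (M4 n hkn A hA)
  · rw [c5]
    refine ⟨fun β hβ => (H5 n hkn β hβ A hA).trans ?_, ?_⟩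
    · exact mono1 h5 k5 (by have := hbeta hn3 (by norm_num) hβ; push_cast; linarith) (by positivity)
    · exact mono2 l5 m5 (hexp hn3 (by norm_num) (by norm_num)) (M5 n hkn A hA)

end Pool.Agent.N332.GK
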